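import Pool.Agent.H.MP_e11395_an.Final

/-! A simple, separable, unital, exact, stably finite C*-algebra with the K-theory of the complex
numbers which is not isomorphic to its opposite algebra. -/

set_option autoImplicit false

namespace Pool.Agent.Results.MP_e11395_an.NotIsoOpposite

open Pool.Agent.H.MP_e11395_an

/-- There is a simple, separable, unital, exact, stably finite C*-algebra `A` with
`(K_0(A), [1]) = (ℤ, 1)` and `K_1(A) = 0` which is not isomorphic to its opposite algebra. -/
theorem result :
    ∃ (A : Type) (_ : CStarAlgebra A), SimpleCStar A ∧ TopologicalSpace.SeparableSpace A ∧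
      ExactCStar A ∧ StablyFiniteCStar A ∧
      (∃ φ : K0 A ≃+ ℤ, φ (K0.mk (Idem.one A)) = 1) ∧ Subsingleton (K1 A) ∧
      IsEmpty (A ≃⋆ₐ[ℂ] Aᵐᵒᵖ) :=
  statement

end Pool.Agent.Results.MP_e11395_an.NotIsoOpposite
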